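import Pool.Agent.H45.EGH.S2

/-!
# EGH: E6A, P6A
-/

set_option autoImplicit false

namespace Pool.EGH

open MvPolynomial

theorem t_E6A (hR : RE6Stmt) (hQ : RQEStmt) : E6AStmt := by
  intro K _ _ N Q I hC hI hQI h
  obtain ⟨l, m, h1, h2, h3, h4, h5⟩ := hQ K N 6 Q I hC hI hQI (by norm_num) (by omega)
  exact hR K N Q I l m hC hI hQI h1 h2 h3 h4 h5 h

theorem t_P6A (hU : UPIStmt) (hE : E6AStmt) : P6AStmt := by
  intro K _ _ N Q U hC hU2 h5
  obtain ⟨h1, h2, h3, h4⟩ := hU K N 6 2 Q U hC hU2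
  have e1 : Nat.choose 6 2 = 15 := by decide
  have e2 : Nat.choose 6 (2 + 1) = 20 := by decide
  rw [e1] at h3
  rw [e2] at h4
  have h6 := hE K N Q (upI Q U) hC h1 h2 (by omega)
  have h7 : hf (upI Q U) 2 = 15 - Module.finrank K U := by omega
  rw [h7] at h6
  have h8 : hf (upI Q U) (2 + 1) = hf (upI Q U) 3 := rfl
  omega

end Pool.EGH
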