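import Pool.Agent.H45.EGH.S2

/-!
# EGH: RNK, GRT, DAN, ANM, GR1, GRD
-/

set_option autoImplicit false

namespace Pool.EGH

open MvPolynomial

variable {K : Type} [Field K] {N : ℕ}

/-- Rank and nullity of the multiplication by `w` on `V`. -/
theorem kr_ml {Q : Ideal (PR K N)} (w : PR K N ⧸ Q) (V : Submodule K (PR K N ⧸ Q))
    [Module.Finite K V] :
    Module.finrank K ↥(kr w V) + Module.finrank K ↥(ml w V) = Module.finrank K V := by
  have h := LinearMap.finrank_range_add_finrank_ker ((LinearMap.mulLeft K w).domRestrict V)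
  have h1 : LinearMap.range ((LinearMap.mulLeft K w).domRestrict V) = ml w V := by
    unfold ml
    ext x
    simp only [LinearMap.mem_range, Submodule.mem_map]
    constructor
    · rintro ⟨⟨y, hy⟩, rfl⟩
      exact ⟨y, hy, rfl⟩
    · rintro ⟨y, hy, rfl⟩
      exact ⟨⟨y, hy⟩, rfl⟩
  have h2 : (LinearMap.ker ((LinearMap.mulLeft K w).domRestrict V)).map V.subtype = kr w V := by
    unfold kr
    ext x
    simp only [Submodule.mem_map, LinearMap.mem_ker, Submodule.mem_inf]
    constructor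
    · rintro ⟨⟨y, hy⟩, h, rfl⟩
      exact ⟨hy, h⟩
    · rintro ⟨hx, h⟩
      exact ⟨⟨x, hx⟩, h, rfl⟩
  rw [← h1, ← h2, Submodule.finrank_map_subtype_eq, add_comm]
  exact h

theorem t_RNK (hM : GPMStmt) : RNKStmt := by
  intro K _ N i Q w V hV
  obtain ⟨hfin, hmul, -, -⟩ := hM K N Q
  have := hfin i
  have := hfin (1 + i)
  have : Module.Finite K V := Submodule.finiteDimensional_of_le hV
  have hW : gp Q 1 * V ≤ gp Q (1 + i) := by
    rw [← hmul 1 i]
    exact mul_le_mul' le_rfl hV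
  have hWf : Module.Finite K ↥(gp Q 1 * V) := Submodule.finiteDimensional_of_le hW
  refine ⟨kr_ml w V, ?_⟩
  have h := kr_ml w (gp Q 1 * V)
  have h1 : gp Q 1 * kr w V ≤ kr w (gp Q 1 * V) := by
    rw [Submodule.mul_le]
    intro x hx y hy
    refine ⟨Submodule.mul_mem_mul hx hy.1, ?_⟩
    have h3 : w * y = 0 := hy.2
    show w * (x * y) = 0
    rw [mul_left_comm, h3, mul_zero]
  have h2 : gp Q 1 * ml w V ≤ ml w (gp Q 1 * V) := by
    rw [Submodule.mul_le]
    rintro x hx _ ⟨y, hy, rfl⟩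
    refine ⟨x * y, Submodule.mul_mem_mul hx hy, ?_⟩
    show w * (x * y) = x * (w * y)
    ring
  have : Module.Finite K ↥(kr w (gp Q 1 * V)) :=
    Submodule.finiteDimensional_of_le (inf_le_left : kr w (gp Q 1 * V) ≤ gp Q 1 * V)
  have : Module.Finite K ↥(ml w (gp Q 1 * V)) := by
    unfold ml
    infer_instance
  have h3 := Submodule.finrank_mono h1
  have h4 := Submodule.finrank_mono h2
  unfold dg
  omega

theorem t_GRT (hP : PAIStmt) (hD : GPDStmt) (hM : GPMStmt) : GRTStmt := by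
  intro K _ _ N n Q hQ V hV hne
  obtain ⟨hfin, hmul, -, -⟩ := hM K N Q
  have := hfin (1 + n)
  have hdim := (hD K N Q).2 (n + 1) hQ (1 + n)
  rw [add_comm 1 n, Nat.choose_self, add_comm n 1] at hdim
  have hW : gp Q 1 * V ≤ gp Q (1 + n) := by
    rw [← hmul 1 n]
    exact mul_le_mul' le_rfl hV
  have hWf : Module.Finite K ↥(gp Q 1 * V) := Submodule.finiteDimensional_of_le hW
  have h1 := Submodule.finrank_mono hW
  obtain ⟨z, hz, hz0⟩ := V.ne_bot_iff.1 hne
  obtain ⟨y, hy, hyz⟩ := hP K N (n + 1) Q hQ n 1 le_rfl z (hV hz) hz0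
  have h2 : 0 < Module.finrank K ↥(gp Q 1 * V) := by
    rw [Module.finrank_pos_iff]
    exact ⟨⟨⟨y * z, Submodule.mul_mem_mul hy hz⟩, 0, fun h => hyz (congrArg Subtype.val h)⟩⟩
  unfold dg
  omega

theorem t_DAN (hA : ANNStmt) (hM : GPMStmt) : DANStmt := by
  intro K _ _ N n Q hQ i j hij V hV
  obtain ⟨hfin, -, hone, -⟩ := hM K N Q
  have := hfin i
  have hVA : V ≤ ann Q i (ann Q j V) := fun v hv => ⟨hV hv, fun y hy => by
    rw [mul_comm]
    exact hy.2 v hv⟩
  have hle : ann Q i (ann Q j V) ≤ gp Q i := fun x hx => hx.1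
  have h1 := hA K N n Q hQ i j 0 (by omega) V hV
  have h2 := hA K N n Q hQ j i 0 (by omega) (ann Q j V) (fun x hx => hx.1)
  rw [hone] at h1 h2
  have h3 : n.choose i = n.choose j := by
    rw [← Nat.choose_symm (show i ≤ n by omega)]
    congr 1
    omega
  have : Module.Finite K ↥(ann Q i (ann Q j V)) := Submodule.finiteDimensional_of_le hle
  exact (Submodule.eq_of_le_of_finrank_eq hVA (by omega)).symm

theorem t_ANM (hP : PAIStmt) (hM : GPMStmt) : ANMStmt := by
  intro K _ _ N n Q hQ i j m hijm V hV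
  obtain ⟨-, hmul, -, -⟩ := hM K N Q
  apply le_antisymm
  · rintro y ⟨hy, hy2⟩
    refine ⟨hy, fun v hv => ?_⟩
    by_contra hne
    obtain ⟨t, ht, ht2⟩ := hP K N n Q hQ (j + i) m (by omega) (y * v) (by
      rw [← hmul j i]
      exact Submodule.mul_mem_mul hy (hV hv)) hne
    apply ht2
    have h1 := hy2 _ (Submodule.mul_mem_mul ht hv)
    rw [← h1]
    ring
  · rintro y ⟨hy, hy2⟩
    refine ⟨hy, fun w hw => ?_⟩
    induction hw using Submodule.mul_induction_on' with
    | mem_mul_mem t ht v hv =>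
      have : y * (t * v) = t * (y * v) := by ring
      rw [this, hy2 v hv, mul_zero]
    | add a _ b _ ha hb => rw [mul_add, ha, hb, add_zero]

theorem t_GR1 (hA : ANNStmt) (hV : ANVStmt) : GR1Stmt := by
  intro K _ _ N n Q hQ hn V hV1
  have h1 := hA K N n Q hQ 1 (n - 2) 1 (by omega) V hV1
  have h2 := hV K N n Q hQ V hV1 (n - 2) (by omega)
  rw [Nat.choose_symm hn] at h1
  rw [show n - (n - 2) = 2 by omega] at h2
  unfold dg
  omega

theorem t_GRD (hA : ANNStmt) (hV : ANVStmt) (hM : GPMStmt) : GRDStmt := by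
  intro K _ _ N n Q hQ V hV1
  obtain ⟨hfin, -, -, -⟩ := hM K N Q
  have := hfin n
  have h1 := hA K N (n + 2) Q hQ n 1 1 (by omega) V hV1
  have h2 := hV K N (n + 2) Q hQ (ann Q 1 V) (fun x hx => hx.1) n (by omega)
  rw [Nat.choose_one_right] at h1
  rw [show n + 2 - n = 2 by omega] at h2
  have hle : ann Q n (ann Q 1 V) ≤ gp Q n := fun x hx => hx.1
  have : Module.Finite K ↥(ann Q n (ann Q 1 V)) := Submodule.finiteDimensional_of_le hle
  have h3 : V ≤ ann Q n (ann Q 1 V) := fun v hv => ⟨hV1 hv, fun y hy => by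
    rw [mul_comm]
    exact hy.2 v hv⟩
  have h4 := Submodule.finrank_mono h3
  have h5 : n + 2 - Module.finrank K ↥(ann Q 1 V) = dg Q V := by
    unfold dg
    omega
  rw [h5] at h2
  omega

end Pool.EGH
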